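import Mathlib
import Pool.Agent.Q17.Mil.Fab

/-!
# MP_e05153_nt: the Miller basis forms have no zeros on the imaginary axis

For every weight `k = 12 l + k'` and every `0 ≤ m ≤ l` the Faber polynomial `F_{k,m}` takes positive
real values on `[1728, ∞)`; equivalently the only zero of `f_{k,m}` on the line `Re τ = 0` is the
trivial zero at `τ = i` for `k' ∈ {6, 10, 14}`.
-/

set_option autoImplicit false

open UpperHalfPlane ModularForm MatrixGroups

namespace Pool.Agent.Results.MP_e05153_nt.NoZero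

/-- The forms `E_{k'}`: `E_0 = 1`, `E_4`, `E_6`, `E_8 = E_4^2`, `E_10 = E_4 E_6`,
`E_14 = E_4^2 E_6`. -/
noncomputable def Ek : ℕ → ℍ → ℂ
  | 4 => fun z => E₄ z
  | 6 => fun z => E₆ z
  | 8 => fun z => E₄ z ^ 2
  | 10 => fun z => E₄ z * E₆ z
  | 14 => fun z => E₄ z ^ 2 * E₆ z
  | _ => fun _ => 1

/-- `f` is the Miller basis form `f_{k,m}`, `k = 12 l + k'`: its `q`-expansion is
`q^m + O(q^(l+1))`. -/
def IsMiller (l k' m : ℕ) (f : ModularForm 𝒮ℒ ((12 * l + k' : ℕ) : ℤ)) : Prop :=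
  ∀ n ≤ l, (qExpansion 1 f).coeff n = if n = m then 1 else 0

/-- The modular invariant `j = E_4^3 / Δ`. -/
noncomputable def j (z : ℍ) : ℂ := E₄ z ^ 3 / discriminant z

/-- `F` is the Faber polynomial of `f`: monic of degree `l - m` with `f = Δ^l E_{k'} F(j)`. -/
def IsFaber (l k' m : ℕ) (f : ModularForm 𝒮ℒ ((12 * l + k' : ℕ) : ℤ)) (F : Polynomial ℂ) : Prop :=
  F.Monic ∧ F.natDegree = l - m ∧ ∀ z : ℍ, f z = discriminant z ^ l * Ek k' z * F.eval (j z)

/-- auxiliary form of the theorem, with `E_{k'} = E_4^a E_6^b` -/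
theorem main (a b l k' m : ℕ) (ha : a ≤ 2) (hb : b ≤ 1) (hk : k' = 4 * a + 6 * b)
    (hk' : k' = 14 ∨ k' < 12) (hE : ∀ z : ℍ, Ek k' z = E₄ z ^ a * E₆ z ^ b) (hm : m ≤ l) :
    (∃! f, IsMiller l k' m f) ∧ ∀ f, IsMiller l k' m f →
      (∃! F, IsFaber l k' m f F) ∧
      (∀ F, IsFaber l k' m f F → ∀ x : ℝ, 1728 ≤ x → ∃ y : ℝ, 0 < y ∧ F.eval (x : ℂ) = y) ∧
      ∀ z : ℍ, z.re = 0 → (f z = 0 ↔ z = UpperHalfPlane.I ∧ b = 1) := by
  obtain ⟨c, h1, h2, h3, ⟨f0, hf0⟩, h5⟩ := Pool.Agent.Q17.Mil.R.miller a b l k' m ha hb hk hk' hm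
  refine ⟨⟨f0, hf0, fun g hg => Pool.Agent.Q17.Mil.R.ext_coeff l k' hk' g f0 fun n hn => by
    rw [hg n hn, hf0 n hn]⟩, fun f hf => ?_⟩
  -- the Faber polynomial
  set F0 : Polynomial ℂ := ∑ i ∈ Finset.range (l - m + 1),
    Polynomial.C ((c i : ℝ) : ℂ) * Polynomial.X ^ i with hF0
  have hev : ∀ w : ℂ, F0.eval w = ∑ i ∈ Finset.range (l - m + 1), ((c i : ℝ) : ℂ) * w ^ i := by
    intro w
    rw [hF0, Polynomial.eval_finsetSum]
    refine Finset.sum_congr rfl fun i _ => ?_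
    rw [Polynomial.eval_mul, Polynomial.eval_C, Polynomial.eval_pow, Polynomial.eval_X]
  have hco : ∀ n, F0.coeff n = if n < l - m + 1 then ((c n : ℝ) : ℂ) else 0 := by
    intro n
    rw [hF0, Polynomial.finsetSum_coeff]
    simp only [Polynomial.coeff_C_mul, Polynomial.coeff_X_pow]
    simp
  have hdeg : F0.natDegree = l - m := by
    apply le_antisymm
    · rw [Polynomial.natDegree_le_iff_coeff_eq_zero]
      intro n hn
      rw [hco, if_neg (by omega)]
    · apply Polynomial.le_natDegree_of_ne_zero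
      rw [hco, if_pos (by omega), h1]
      norm_num
  have hmon : F0.Monic := by
    rw [Polynomial.Monic, Polynomial.leadingCoeff, hdeg, hco, if_pos (by omega), h1]
    norm_num
  have hfab : IsFaber l k' m f F0 := by
    refine ⟨hmon, hdeg, fun z => ?_⟩
    rw [h5 f hf z, hE, hev, j]
  have huniq : ∀ F, IsFaber l k' m f F → F = F0 := by
    intro F hF
    apply Polynomial.eq_of_infinite_eval_eq
    have hinf : ({x : ℂ | x ≠ 0 ∧ x ≠ 1728}).Infinite := by
      have : ({x : ℂ | x ≠ 0 ∧ x ≠ 1728}) = ({0, 1728} : Set ℂ)ᶜ := by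
        ext x; simp
      rw [this]
      exact (Set.toFinite _).infinite_compl
    refine hinf.mono fun x hx => ?_
    obtain ⟨hx0, hx1⟩ := hx
    obtain ⟨z, hz⟩ := Pool.Agent.Q17.Mil.exists_j x
    have hd := discriminant_ne_zero z
    have h4 : E₄ z ≠ 0 := by
      intro h0
      rw [h0, zero_pow (by norm_num)] at hz
      exact mul_ne_zero hx0 hd hz.symm
    have h6 : E₆ z ≠ 0 := by
      intro h0
      have h7 := discriminant_eq_E₄_cube_sub_E₆_sq z
      rw [h0, zero_pow (by norm_num), sub_zero, hz] at h7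
      have h8 : (x - 1728) * discriminant z = 0 := by linear_combination (-1728 : ℂ) * h7
      exact mul_ne_zero (sub_ne_zero.2 hx1) hd h8
    have hj : j z = x := by rw [j, hz, mul_div_assoc, div_self hd, mul_one]
    have e1 := hF.2.2 z
    rw [hfab.2.2 z, hE, hj] at e1
    have hne : discriminant z ^ l * (E₄ z ^ a * E₆ z ^ b) ≠ 0 :=
      mul_ne_zero (pow_ne_zero _ hd) (mul_ne_zero (pow_ne_zero _ h4) (pow_ne_zero _ h6))
    exact (mul_left_cancel₀ hne e1).symm
  have hpos : ∀ x : ℝ, 1728 ≤ x → ∃ y : ℝ, 0 < y ∧ F0.eval (x : ℂ) = y := by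
    intro x hx
    refine ⟨_, h3 x hx, ?_⟩
    rw [hev]
    push_cast
    rfl
  refine ⟨⟨F0, hfab, huniq⟩, fun F hF => by rw [huniq F hF]; exact hpos, fun z hz => ?_⟩
  obtain ⟨x, hx, hxz⟩ := Pool.Agent.Q17.Mil.j_it hz
  have hd := discriminant_ne_zero z
  have hj : j z = (x : ℂ) := by rw [j, hxz, mul_div_assoc, div_self hd, mul_one]
  obtain ⟨y, hy, hy2⟩ := hpos x hx
  have hyc : (y : ℂ) ≠ 0 := by exact_mod_cast hy.ne'
  rw [hfab.2.2 z, hE, hj, hy2]
  have h4 := Pool.Agent.Q17.Mil.E4_it_ne hz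
  have h6 := Pool.Agent.Q17.Mil.E6_it_zero hz
  rw [← h6]
  constructor
  · intro h
    rcases mul_eq_zero.1 h with h | h
    · rcases mul_eq_zero.1 h with h | h
      · exact absurd h (pow_ne_zero _ hd)
      · rcases mul_eq_zero.1 h with h | h
        · exact absurd h (pow_ne_zero _ h4)
        · have hb0 : b ≠ 0 := by
            rintro rfl
            rw [pow_zero] at h
            exact one_ne_zero h
          exact ⟨pow_eq_zero_iff hb0 |>.1 h, by omega⟩
    · exact absurd h hyc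
  · rintro ⟨h, rfl⟩
    rw [h]; ring

/-- **Q1 is true.** Let `k = 12 l + k'` with `k' ∈ {0, 4, 6, 8, 10, 14}` and `0 ≤ m ≤ l`. The Miller
basis form `f_{k,m}` exists and is unique, and so does its Faber polynomial `F_{k,m}`; for every real
`x ≥ 1728` the value `F_{k,m}(x)` is a positive real number; and on the line `Re τ = 0` the form
`f_{k,m}` vanishes exactly at `τ = i` if `k' ∈ {6, 10, 14}` and nowhere otherwise. -/
theorem result (l k' m : ℕ) (hk : k' ∈ ({0, 4, 6, 8, 10, 14} : Finset ℕ)) (hm : m ≤ l) :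
    (∃! f, IsMiller l k' m f) ∧ ∀ f, IsMiller l k' m f →
      (∃! F, IsFaber l k' m f F) ∧
      (∀ F, IsFaber l k' m f F → ∀ x : ℝ, 1728 ≤ x → ∃ y : ℝ, 0 < y ∧ F.eval (x : ℂ) = y) ∧
      ∀ z : ℍ, z.re = 0 →
        (f z = 0 ↔ z = UpperHalfPlane.I ∧ k' ∈ ({6, 10, 14} : Finset ℕ)) := by
  simp only [Finset.mem_insert, Finset.mem_singleton] at hk
  rcases hk with rfl | rfl | rfl | rfl | rfl | rfl
  · simpa using main 0 0 l 0 m (by omega) (by omega) rfl (by omega) (fun z => by simp [Ek]) hm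
  · simpa using main 1 0 l 4 m (by omega) (by omega) rfl (by omega) (fun z => by simp [Ek]) hm
  · simpa using main 0 1 l 6 m (by omega) (by omega) rfl (by omega) (fun z => by simp [Ek]) hm
  · simpa using main 2 0 l 8 m (by omega) (by omega) rfl (by omega) (fun z => by simp [Ek]) hm
  · simpa using main 1 1 l 10 m (by omega) (by omega) rfl (by omega) (fun z => by simp [Ek]) hm
  · simpa using main 2 1 l 14 m (by omega) (by omega) rfl (by omega) (fun z => by simp [Ek]) hm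

end Pool.Agent.Results.MP_e05153_nt.NoZero
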